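import Pool.Agent.Y227.XR.Int

/-!
# Ellipsoids: chords, and uniqueness for two conjugate directions
-/

set_option autoImplicit false

open MeasureTheory Set
open scoped InnerProductSpace ENNReal

namespace Pool.Agent.Y227.XR

open Pool.Agent.Results.MP_5df5df_gt.TwoSuccessiveFail

/-- The solid ellipsoid with centre `c`, the image of the unit ball under the affine map
`y ↦ A⁻¹ y + c`. -/
def elp (A : E3 ≃L[ℝ] E3) (c : E3) : Set E3 := {x | ‖A (x - c)‖ ≤ 1}

theorem mem_elp {A : E3 ≃L[ℝ] E3} {c x : E3} : x ∈ elp A c ↔ ‖A (x - c)‖ ≤ 1 := Iff.rfl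

theorem elp_isBody (A : E3 ≃L[ℝ] E3) (c : E3) : IsBody (elp A c) := by
  refine ⟨?_, ?_, ?_⟩
  · intro x hx y hy a b ha hb hab
    rw [mem_elp] at *
    have h1 : a • x + b • y - c = a • (x - c) + b • (y - c) := by
      have : c = a • c + b • c := by rw [← add_smul, hab, one_smul]
      nth_rewrite 1 [this]
      module
    rw [h1, map_add, map_smul, map_smul]
    calc ‖a • A (x - c) + b • A (y - c)‖ ≤ ‖a • A (x - c)‖ + ‖b • A (y - c)‖ := norm_add_le _ _
      _ = a * ‖A (x - c)‖ + b * ‖A (y - c)‖ := by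
          rw [norm_smul, norm_smul, Real.norm_of_nonneg ha, Real.norm_of_nonneg hb]
      _ ≤ a * 1 + b * 1 := by gcongr
      _ = 1 := by linarith
  · have h1 : elp A c = (fun y => A.symm y + c) '' Metric.closedBall 0 1 := by
      ext x
      rw [mem_elp]
      constructor
      · intro hx
        refine ⟨A (x - c), by simpa using hx, ?_⟩
        simp
      · rintro ⟨y, hy, rfl⟩
        simpa using hy
    rw [h1]
    refine (isCompact_closedBall _ _).image ?_
    exact A.symm.continuous.add continuous_const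
  · refine ⟨c, mem_interior.2 ⟨{x | ‖A (x - c)‖ < 1},
      fun x (hx : ‖A (x - c)‖ < 1) => (le_of_lt hx : ‖A (x - c)‖ ≤ 1), ?_, ?_⟩⟩
    · exact isOpen_lt (A.continuous.comp (continuous_id.sub continuous_const)).norm continuous_const
    · simp

theorem body_meas {K : Set E3} (hK : IsBody K) : MeasurableSet K :=
  hK.2.1.isClosed.measurableSet

/-- two convex bodies that are equal up to a null set are equal -/
theorem body_subset {K L : Set E3} (hK : IsBody K) (hL : IsBody L) (h : volume (K \ L) = 0) :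
    K ⊆ L := by
  intro x hx
  by_contra hxL
  have h1 : closure (interior K) = closure K :=
    hK.1.closure_interior_eq_closure_of_nonempty_interior hK.2.2
  have h2 : x ∈ closure (interior K) := by
    rw [h1]
    exact subset_closure hx
  have hopen : IsOpen (Lᶜ) := hL.2.1.isClosed.isOpen_compl
  obtain ⟨y, hy1, hy2⟩ := mem_closure_iff.1 h2 Lᶜ hopen hxL
  have h3 : 0 < volume (interior K ∩ Lᶜ) :=
    (isOpen_interior.inter hopen).measure_pos volume ⟨y, hy2, hy1⟩
  have h4 : volume (interior K ∩ Lᶜ) ≤ volume (K \ L) :=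
    measure_mono fun z hz => ⟨interior_subset hz.1, hz.2⟩
  rw [h] at h4
  exact absurd h3 (not_lt.2 h4)

/-- the part of the quadratic form which does not change in direction `u` -/
noncomputable def sc (A : E3 ≃L[ℝ] E3) (u y : E3) : ℝ :=
  ‖A y‖ ^ 2 - ⟪A y, A u⟫_ℝ ^ 2 / ‖A u‖ ^ 2

theorem norm_pos' (A : E3 ≃L[ℝ] E3) {u : E3} (hu : u ≠ 0) : 0 < ‖A u‖ := by
  rw [norm_pos_iff]
  intro h
  exact hu (by simpa using h)

theorem sc_nonneg (A : E3 ≃L[ℝ] E3) {u : E3} (hu : u ≠ 0) (y : E3) : 0 ≤ sc A u y := by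
  have h := norm_pos' A hu
  unfold sc
  rw [sub_nonneg, div_le_iff₀ (by positivity)]
  have := abs_real_inner_le_norm (A y) (A u)
  rw [← mul_pow, ← sq_abs]
  exact pow_le_pow_left₀ (abs_nonneg _) this 2

theorem sc_add_smul (A : E3 ≃L[ℝ] E3) {u : E3} (hu : u ≠ 0) (y : E3) (t : ℝ) :
    sc A u (y + t • u) = sc A u y := by
  have h := norm_pos' A hu
  unfold sc
  rw [map_add, map_smul, norm_add_sq_real, inner_smul_right, norm_smul, mul_pow, Real.norm_eq_abs,
    sq_abs, inner_add_left, inner_smul_left, real_inner_self_eq_norm_sq]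
  simp only [conj_trivial]
  field_simp
  ring

theorem sc_smul (A : E3 ≃L[ℝ] E3) (u y : E3) (s : ℝ) : sc A u (s • y) = s ^ 2 * sc A u y := by
  unfold sc
  rw [map_smul, norm_smul, mul_pow, Real.norm_eq_abs, sq_abs, inner_smul_left]
  simp only [conj_trivial]
  ring

theorem sc_zero (A : E3 ≃L[ℝ] E3) (u : E3) : sc A u 0 = 0 := by
  unfold sc
  simp

/-- the length of a chord -/
theorem chord (A : E3 ≃L[ℝ] E3) {u : E3} (hu : u ≠ 0) (c x : E3) :
    xray u (elp A c) x = ENNReal.ofReal (2 * √(1 - sc A u (x - c)) / ‖A u‖) := by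
  have h := norm_pos' A hu
  have h2 : 0 < ‖A u‖ ^ 2 := by positivity
  set a : ℝ := ⟪A (x - c), A u⟫_ℝ / ‖A u‖ ^ 2 with ha
  set ρ : ℝ := √(1 - sc A u (x - c)) / ‖A u‖ with hρ
  have key : ∀ t : ℝ, ‖A (x + t • u - c)‖ ^ 2 =
      ‖A u‖ ^ 2 * (t + a) ^ 2 + sc A u (x - c) := by
    intro t
    have e : x + t • u - c = (x - c) + t • u := by abel
    rw [e, map_add, map_smul, norm_add_sq_real, inner_smul_right, norm_smul, mul_pow,
      Real.norm_eq_abs, sq_abs, sc, ha]
    field_simp
    ring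
  unfold xray
  by_cases hs : 1 < sc A u (x - c)
  · have : {t : ℝ | x + t • u ∈ elp A c} = ∅ := by
      rw [Set.eq_empty_iff_forall_notMem]
      intro t ht
      have h3 : ‖A (x + t • u - c)‖ ≤ 1 := ht
      have h4 : ‖A (x + t • u - c)‖ ^ 2 ≤ 1 := by
        rw [sq_le_one_iff₀ (norm_nonneg _)]; exact h3
      rw [key t] at h4
      have := mul_nonneg h2.le (sq_nonneg (t + a))
      linarith
    rw [this, measure_empty, Real.sqrt_eq_zero_of_nonpos (by linarith)]
    simp
  · push Not at hs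
    have hρ2 : ρ ^ 2 = (1 - sc A u (x - c)) / ‖A u‖ ^ 2 := by
      rw [hρ, div_pow, Real.sq_sqrt (by linarith)]
    have : {t : ℝ | x + t • u ∈ elp A c} = Icc (-a - ρ) (-a + ρ) := by
      ext t
      have h3 : t ∈ {t : ℝ | x + t • u ∈ elp A c} ↔ ‖A (x + t • u - c)‖ ^ 2 ≤ 1 := by
        rw [sq_le_one_iff₀ (norm_nonneg _)]; rfl
      rw [h3, key t]
      have h4 : ‖A u‖ ^ 2 * (t + a) ^ 2 + sc A u (x - c) ≤ 1 ↔ (t + a) ^ 2 ≤ ρ ^ 2 := by
        rw [hρ2, le_div_iff₀ h2]
        constructor <;> intro h5 <;> linarith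
      rw [h4, sq_le_sq, abs_of_nonneg (show 0 ≤ ρ by positivity), abs_le, mem_Icc]
      constructor
      · rintro ⟨h5, h6⟩; constructor <;> linarith
      · rintro ⟨h5, h6⟩; constructor <;> linarith
    rw [this, Real.volume_Icc]
    congr 1
    rw [hρ]
    ring

/-- **Two conjugate directions determine an ellipsoid** among all convex bodies. -/
theorem conj_unique (A : E3 ≃L[ℝ] E3) (c u v : E3) (hu : ‖u‖ = 1) (hv : ‖v‖ = 1)
    (huv : ⟪A u, A v⟫_ℝ = 0) (K : Set E3) (hK : IsBody K)
    (h1 : xray u K = xray u (elp A c)) (h2 : xray v K = xray v (elp A c)) : K = elp A c := by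
  have hu0 : u ≠ 0 := by rintro rfl; simp at hu
  have hv0 : v ≠ 0 := by rintro rfl; simp at hv
  have hE := elp_isBody A c
  have hAu := norm_pos' A hu0
  set E := elp A c with hEdef
  set φ1 : E3 → ℝ≥0∞ := fun x => ENNReal.ofReal (sc A u (x - c)) with hφ1
  set φ2 : E3 → ℝ≥0∞ := fun x => ENNReal.ofReal (⟪A (x - c), A u⟫_ℝ ^ 2 / ‖A u‖ ^ 2) with hφ2
  set H : E3 → ℝ≥0∞ := fun x => ENNReal.ofReal (‖A (x - c)‖ ^ 2) with hH
  have hc1 : Continuous fun x : E3 => ‖A (x - c)‖ ^ 2 := by fun_prop
  have hc2 : Continuous fun x : E3 => ⟪A (x - c), A u⟫_ℝ ^ 2 / ‖A u‖ ^ 2 := by fun_prop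
  have hm1 : Measurable φ1 := by
    apply ENNReal.measurable_ofReal.comp
    exact (hc1.sub hc2).measurable
  have hm2 : Measurable φ2 := ENNReal.measurable_ofReal.comp hc2.measurable
  have hmH : Measurable H := ENNReal.measurable_ofReal.comp hc1.measurable
  have hsum : ∀ x, H x = φ1 x + φ2 x := by
    intro x
    simp only [hH, hφ1, hφ2]
    rw [← ENNReal.ofReal_add (sc_nonneg A hu0 _) (by positivity)]
    congr 1
    unfold sc
    ring
  have hint : ∀ L : Set E3, ∫⁻ x in L, H x = (∫⁻ x in L, φ1 x) + ∫⁻ x in L, φ2 x := by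
    intro L
    calc ∫⁻ x in L, H x = ∫⁻ x in L, (φ1 x + φ2 x) := lintegral_congr fun x => hsum x
      _ = _ := lintegral_add_left hm1 _
  have hφ1inv : ∀ (x : E3) (t : ℝ), φ1 (x + t • u) = φ1 x := by
    intro x t
    simp only [hφ1]
    have e : x + t • u - c = (x - c) + t • u := by abel
    rw [e, sc_add_smul A hu0]
  have hφ2inv : ∀ (x : E3) (t : ℝ), φ2 (x + t • v) = φ2 x := by
    intro x t
    simp only [hφ2]
    have e : x + t • v - c = (x - c) + t • v := by abel
    rw [e, map_add, map_smul, inner_add_left, inner_smul_left, real_inner_comm (A u) (A v), huv,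
      mul_zero, add_zero]
  have hHeq : ∫⁻ x in K, H x = ∫⁻ x in E, H x := by
    rw [hint, hint, setLIntegral_eq u hu K E (body_meas hK) (body_meas hE) h1 φ1 hm1 hφ1inv,
      setLIntegral_eq v hv K E (body_meas hK) (body_meas hE) h2 φ2 hm2 hφ2inv]
  have hvol : volume K = volume E := by
    have := setLIntegral_eq u hu K E (body_meas hK) (body_meas hE) h1 (fun _ => 1) measurable_const
      (fun _ _ => rfl)
    simpa using this
  have hEfin : volume E ≠ ∞ := hE.2.1.measure_lt_top.ne
  have hIfin : volume (K ∩ E) ≠ ∞ := ((measure_mono inter_subset_right).trans_lt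
    hE.2.1.measure_lt_top).ne
  have hdiff : volume (K \ E) = volume (E \ K) := by
    have e1 := measure_inter_add_diff (μ := volume) K (body_meas hE)
    have e2 := measure_inter_add_diff (μ := volume) E (body_meas hK)
    rw [inter_comm] at e2
    rw [← e1, ← e2] at hvol
    exact (ENNReal.add_right_inj hIfin).1 hvol
  have hHle : ∀ x ∈ E, H x ≤ 1 := by
    intro x hx
    simp only [hH]
    rw [ENNReal.ofReal_le_one, sq_le_one_iff₀ (norm_nonneg _)]
    exact hx
  have hHIfin : ∫⁻ x in K ∩ E, H x ≠ ∞ := by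
    have : ∫⁻ x in K ∩ E, H x ≤ ∫⁻ x in K ∩ E, 1 :=
      setLIntegral_mono measurable_const fun x hx => hHle x hx.2
    refine (this.trans_lt ?_).ne
    rw [setLIntegral_one]
    exact hIfin.lt_top
  have hHdiff : ∫⁻ x in K \ E, H x = ∫⁻ x in E \ K, H x := by
    have e1 := lintegral_inter_add_diff (μ := volume) H K (body_meas hE)
    have e2 := lintegral_inter_add_diff (μ := volume) H E (body_meas hK)
    rw [inter_comm] at e2
    rw [← e1, ← e2] at hHeq
    exact (ENNReal.add_right_inj hHIfin).1 hHeq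
  have hle : ∫⁻ x in K \ E, H x ≤ volume (K \ E) := by
    rw [hHdiff, hdiff, ← setLIntegral_one]
    exact setLIntegral_mono measurable_const fun x hx => hHle x hx.1
  have hzero : volume (K \ E) = 0 := by
    by_contra hne
    have hlt : ∫⁻ x in K \ E, 1 < ∫⁻ x in K \ E, H x := by
      refine setLIntegral_strict_mono ((body_meas hK).diff (body_meas hE)) hne hmH ?_ ?_
      · rw [setLIntegral_one]
        exact ((measure_mono diff_subset).trans_lt hK.2.1.measure_lt_top).ne
      · refine Filter.Eventually.of_forall fun x hx => ?_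
        simp only [hH]
        rw [ENNReal.one_lt_ofReal]
        have h3 : ¬ ‖A (x - c)‖ ≤ 1 := hx.2
        push Not at h3
        nlinarith
    rw [setLIntegral_one] at hlt
    exact absurd hlt (not_lt.2 hle)
  exact Subset.antisymm (body_subset hK hE hzero) (body_subset hE hK (hdiff ▸ hzero))

end Pool.Agent.Y227.XR
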