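import Pool.Agent.Results.MP_5df5df_gt.TwoSuccessiveFail

/-!
# X-rays determine the integrals of functions which are invariant in their direction
-/

set_option autoImplicit false

open MeasureTheory Set
open scoped InnerProductSpace ENNReal

namespace Pool.Agent.Y227.XR

open Pool.Agent.Results.MP_5df5df_gt.TwoSuccessiveFail

theorem lintegral_eq_xray (u : E3) (hu : ‖u‖ = 1) (K : Set E3) (hK : MeasurableSet K)
    (φ : E3 → ℝ≥0∞) (hφ : Measurable φ) (hinv : ∀ (x : E3) (t : ℝ), φ (x + t • u) = φ x) :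
    ∫⁻ x in K, φ x = ∫⁻ x, φ x * (Icc (0 : ℝ) 1).indicator (fun _ => (1 : ℝ≥0∞)) ⟪x, u⟫_ℝ *
      xray u K x := by
  set r : ℝ → ℝ≥0∞ := (Icc (0 : ℝ) 1).indicator (fun _ => 1) with hr
  have hrm : Measurable r := measurable_const.indicator measurableSet_Icc
  have hr1 : ∀ s : ℝ, ∫⁻ t, r (s - t) = 1 := by
    intro s
    rw [lintegral_sub_left_eq_self (fun t => r t) s, hr, lintegral_indicator measurableSet_Icc]
    simp
  have huu : ⟪u, u⟫_ℝ = 1 := by rw [real_inner_self_eq_norm_sq, hu]; norm_num
  have hmeas1 : Measurable (fun p : E3 × ℝ => K.indicator φ p.1 * r (⟪p.1, u⟫_ℝ - p.2)) := by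
    refine ((hφ.indicator hK).comp measurable_fst).mul (hrm.comp ?_)
    have : Continuous (fun p : E3 × ℝ => ⟪p.1, u⟫_ℝ - p.2) := by fun_prop
    exact this.measurable
  have hmeas2 : Measurable (fun p : ℝ × E3 => K.indicator φ (p.2 + p.1 • u) * r ⟪p.2, u⟫_ℝ) := by
    refine ((hφ.indicator hK).comp ?_).mul (hrm.comp ?_)
    · have : Continuous (fun p : ℝ × E3 => p.2 + p.1 • u) := by fun_prop
      exact this.measurable
    · have : Continuous (fun p : ℝ × E3 => ⟪p.2, u⟫_ℝ) := by fun_prop
      exact this.measurable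
  calc ∫⁻ x in K, φ x = ∫⁻ x, K.indicator φ x := by rw [lintegral_indicator hK]
    _ = ∫⁻ x, ∫⁻ t, K.indicator φ x * r (⟪x, u⟫_ℝ - t) := by
        refine lintegral_congr fun x => ?_
        rw [lintegral_const_mul, hr1, mul_one]
        exact hrm.comp (measurable_const.sub measurable_id)
    _ = ∫⁻ t, ∫⁻ x, K.indicator φ x * r (⟪x, u⟫_ℝ - t) :=
        lintegral_lintegral_swap hmeas1.aemeasurable
    _ = ∫⁻ t, ∫⁻ x, K.indicator φ (x + t • u) * r ⟪x, u⟫_ℝ := by
        refine lintegral_congr fun t => ?_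
        rw [← lintegral_add_right_eq_self (fun x => K.indicator φ x * r (⟪x, u⟫_ℝ - t)) (t • u)]
        refine lintegral_congr fun x => ?_
        rw [inner_add_left, inner_smul_left, huu]
        simp
    _ = ∫⁻ x, ∫⁻ t, K.indicator φ (x + t • u) * r ⟪x, u⟫_ℝ :=
        lintegral_lintegral_swap hmeas2.aemeasurable
    _ = ∫⁻ x, φ x * r ⟪x, u⟫_ℝ * xray u K x := by
        refine lintegral_congr fun x => ?_
        have h1 : ∀ t : ℝ, K.indicator φ (x + t • u) * r ⟪x, u⟫_ℝ =
            (φ x * r ⟪x, u⟫_ℝ) * ({t : ℝ | x + t • u ∈ K}.indicator (fun _ => 1) t) := by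
          intro t
          by_cases ht : x + t • u ∈ K
          · rw [indicator_of_mem ht, hinv, indicator_of_mem (show t ∈ {t : ℝ | x + t • u ∈ K} from ht),
              mul_one]
          · rw [indicator_of_notMem ht,
              indicator_of_notMem (show t ∉ {t : ℝ | x + t • u ∈ K} from ht), zero_mul, mul_zero]
        have hms : MeasurableSet {t : ℝ | x + t • u ∈ K} := by
          have : Continuous (fun t : ℝ => x + t • u) := by fun_prop
          exact this.measurable hK
        rw [lintegral_congr h1, lintegral_const_mul, lintegral_indicator hms]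
        · simp [xray]
        · exact measurable_const.indicator hms

/-- equal X-rays give equal integrals -/
theorem setLIntegral_eq (u : E3) (hu : ‖u‖ = 1) (K L : Set E3) (hK : MeasurableSet K)
    (hL : MeasurableSet L) (h : xray u K = xray u L)
    (φ : E3 → ℝ≥0∞) (hφ : Measurable φ) (hinv : ∀ (x : E3) (t : ℝ), φ (x + t • u) = φ x) :
    ∫⁻ x in K, φ x = ∫⁻ x in L, φ x := by
  rw [lintegral_eq_xray u hu K hK φ hφ hinv, lintegral_eq_xray u hu L hL φ hφ hinv, h]

end Pool.Agent.Y227.XR
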