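import Pool.Agent.Y227.XR.Ell

/-!
# Ellipsoids: two X-rays leave at most two candidates, a third adapted one decides
-/

set_option autoImplicit false

open MeasureTheory Set
open scoped InnerProductSpace ENNReal

namespace Pool.Agent.Y227.XR

open Pool.Agent.Results.MP_5df5df_gt.TwoSuccessiveFail

theorem sc_eq_zero (A : E3 ≃L[ℝ] E3) {u : E3} (hu : u ≠ 0) {y : E3} (h : sc A u y = 0) :
    ∃ t : ℝ, y = t • u := by
  have h0 := norm_pos' A hu
  set t : ℝ := ⟪A y, A u⟫_ℝ / ‖A u‖ ^ 2 with ht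
  refine ⟨t, ?_⟩
  have h1 : ‖A (y - t • u)‖ ^ 2 = 0 := by
    rw [map_sub, map_smul, norm_sub_sq_real, inner_smul_right, norm_smul, mul_pow,
      Real.norm_eq_abs, sq_abs]
    unfold sc at h
    rw [ht]
    field_simp
    field_simp at h
    linear_combination h
  have h2 : ‖A (y - t • u)‖ = 0 := by
    rwa [sq_eq_zero_iff] at h1
  rw [norm_eq_zero] at h2
  have h3 : y - t • u = 0 := A.map_eq_zero_iff.1 h2
  exact sub_eq_zero.1 h3

/-- equality of X-rays of ellipsoids in one direction -/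
theorem xray_eq (A B : E3 ≃L[ℝ] E3) {u : E3} (hu : u ≠ 0) (c e : E3)
    (h : xray u (elp A c) = xray u (elp B e)) :
    (∃ t : ℝ, e - c = t • u) ∧ ‖A u‖ = ‖B u‖ ∧ ∀ y, sc A u y = sc B u y := by
  have hA := norm_pos' A hu
  have hB := norm_pos' B hu
  have hx : ∀ x, √(1 - sc A u (x - c)) / ‖A u‖ = √(1 - sc B u (x - e)) / ‖B u‖ := by
    intro x
    have h1 := congrFun h x
    rw [chord A hu, chord B hu, ENNReal.ofReal_eq_ofReal_iff (by positivity) (by positivity)] at h1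
    have h2 : 2 * (√(1 - sc A u (x - c)) / ‖A u‖) = 2 * (√(1 - sc B u (x - e)) / ‖B u‖) := by
      rw [← mul_div_assoc, ← mul_div_assoc]
      exact h1
    linarith
  have hle1 : ∀ y, √(1 - sc A u y) ≤ 1 := fun y => by
    rw [Real.sqrt_le_one]
    linarith [sc_nonneg A hu y]
  have hle2 : ∀ y, √(1 - sc B u y) ≤ 1 := fun y => by
    rw [Real.sqrt_le_one]
    linarith [sc_nonneg B hu y]
  have hc := hx c
  have he := hx e
  rw [sub_self, sc_zero, sub_zero, Real.sqrt_one] at hc he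
  have hn : ‖A u‖ = ‖B u‖ := by
    apply le_antisymm
    · have : 1 / ‖B u‖ ≤ 1 / ‖A u‖ := by
        rw [← he]
        exact div_le_div_of_nonneg_right (hle1 _) hA.le
      exact (one_div_le_one_div hB hA).1 this
    · have : 1 / ‖A u‖ ≤ 1 / ‖B u‖ := by
        rw [hc]
        exact div_le_div_of_nonneg_right (hle2 _) hB.le
      exact (one_div_le_one_div hA hB).1 this
  have hx' : ∀ x, √(1 - sc A u (x - c)) = √(1 - sc B u (x - e)) := by
    intro x
    have h1 := hx x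
    rw [hn] at h1
    exact (div_left_inj' hB.ne').1 h1
  have hcz : sc B u (c - e) = 0 := by
    have h1 := hx' c
    rw [sub_self, sc_zero, sub_zero, Real.sqrt_one] at h1
    have h2 : 1 - sc B u (c - e) = 1 := by
      have := h1.symm
      rwa [Real.sqrt_eq_one] at this
    linarith
  obtain ⟨t, ht⟩ := sc_eq_zero B hu hcz
  have hce : e - c = (-t) • u := by
    rw [neg_smul, ← ht]
    abel
  refine ⟨⟨-t, hce⟩, hn, ?_⟩
  have hcent : ∀ y, √(1 - sc A u y) = √(1 - sc B u y) := by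
    intro y
    have h1 := hx' (y + c)
    have e1 : y + c - c = y := by abel
    have e2 : y + c - e = y + t • u := by
      rw [← ht]
      abel
    rwa [e1, e2, sc_add_smul B hu] at h1
  intro y
  -- scale
  have hSA := sc_nonneg A hu y
  have hSB := sc_nonneg B hu y
  set M : ℝ := 1 + sc A u y + sc B u y with hM
  have hM1 : 1 ≤ M := by linarith
  have h1 := hcent ((1 / M) • y)
  rw [sc_smul, sc_smul] at h1
  have hMpos : 0 < M := by linarith
  have hb : ∀ S : ℝ, 0 ≤ S → S ≤ M → 0 ≤ 1 - (1 / M) ^ 2 * S := by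
    intro S h0 hS
    have : (1 / M) ^ 2 * S ≤ (1 / M) ^ 2 * M := by gcongr
    have h3 : (1 / M) ^ 2 * M = 1 / M := by field_simp
    have h4 : 1 / M ≤ 1 := by rw [div_le_one hMpos]; exact hM1
    linarith
  rw [Real.sqrt_inj (hb _ hSA (by linarith)) (hb _ hSB (by linarith))] at h1
  have h2 : (1 / M) ^ 2 * (sc A u y - sc B u y) = 0 := by linarith
  rcases mul_eq_zero.1 h2 with h3 | h3
  · exact absurd h3 (by positivity)
  · linarith

theorem inner_eq_of_norm_eq (A B : E3 ≃L[ℝ] E3) (h : ∀ y, ‖A y‖ ^ 2 = ‖B y‖ ^ 2) (x y : E3) :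
    ⟪A x, A y⟫_ℝ = ⟪B x, B y⟫_ℝ := by
  have h1 := h (x + y)
  rw [map_add, map_add, norm_add_sq_real, norm_add_sq_real, h x, h y] at h1
  linarith

/-- Two ellipsoids with the same X-rays in two independent directions for which the two
directions make angles of the same kind are equal. -/
theorem two_xrays (A B : E3 ≃L[ℝ] E3) {u v : E3} (hu : u ≠ 0) (hv : v ≠ 0)
    (hind : ∀ t : ℝ, v ≠ t • u) (c e : E3)
    (h1 : xray u (elp A c) = xray u (elp B e)) (h2 : xray v (elp A c) = xray v (elp B e))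
    (hsign : (0 ≤ ⟪A u, A v⟫_ℝ ∧ 0 ≤ ⟪B u, B v⟫_ℝ) ∨ (⟪A u, A v⟫_ℝ ≤ 0 ∧ ⟪B u, B v⟫_ℝ ≤ 0)) :
    c = e ∧ ∀ y, ‖A y‖ ^ 2 = ‖B y‖ ^ 2 := by
  obtain ⟨⟨t, ht⟩, hnu, hsu⟩ := xray_eq A B hu c e h1
  obtain ⟨⟨s, hs⟩, hnv, hsv⟩ := xray_eq A B hv c e h2
  have hA := norm_pos' A hu
  have hB := norm_pos' B hu
  have hAv := norm_pos' A hv
  have hBv := norm_pos' B hv
  have hce : c = e := by
    by_cases hs0 : s = 0
    · rw [hs0, zero_smul] at hs
      exact (sub_eq_zero.1 hs).symm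
    · exfalso
      apply hind (t / s)
      rw [div_eq_inv_mul, mul_smul, ← ht, hs, ← mul_smul, inv_mul_cancel₀ hs0, one_smul]
  refine ⟨hce, ?_⟩
  set a : ℝ := ‖A u‖ ^ 2 with ha
  set b : ℝ := ‖A v‖ ^ 2 with hb
  have ha' : ‖B u‖ ^ 2 = a := by rw [ha, hnu]
  have hb' : ‖B v‖ ^ 2 = b := by rw [hb, hnv]
  have hapos : 0 < a := by positivity
  have hbpos : 0 < b := by positivity
  set k : ℝ := ⟪A u, A v⟫_ℝ with hk
  -- the mixed term
  have hkB : ⟪B u, B v⟫_ℝ = k := by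
    have h3 := hsu v
    unfold sc at h3
    rw [← ha, ha', ← hb, hb', real_inner_comm, real_inner_comm (B u) (B v)] at h3
    have h4 : k ^ 2 = ⟪B u, B v⟫_ℝ ^ 2 := by
      have h5 : ⟪A u, A v⟫_ℝ ^ 2 / a = ⟪B u, B v⟫_ℝ ^ 2 / a := by linarith
      exact (div_left_inj' hapos.ne').1 h5
    rcases sq_eq_sq_iff_eq_or_eq_neg.1 h4 with h5 | h5
    · exact h5.symm
    · rcases hsign with ⟨h6, h7⟩ | ⟨h6, h7⟩ <;> linarith
  have hlt : k ^ 2 < a * b := by
    have h3 := sc_nonneg A hu v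
    have h4 : sc A u v ≠ 0 := by
      intro h5
      obtain ⟨r, hr⟩ := sc_eq_zero A hu h5
      exact hind r hr
    have h5 : 0 < sc A u v := lt_of_le_of_ne h3 (Ne.symm h4)
    unfold sc at h5
    rw [real_inner_comm, ← ha, ← hb, ← hk] at h5
    rw [sub_pos, div_lt_iff₀ hapos] at h5
    linarith
  -- polarisation
  have pu : ∀ y, ⟪A y, A v⟫_ℝ - ⟪A y, A u⟫_ℝ * k / a = ⟪B y, B v⟫_ℝ - ⟪B y, B u⟫_ℝ * k / a := by
    intro y
    have e1 := hsu (y + v)
    have e2 := hsu y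
    have e3 := hsu v
    unfold sc at e1 e2 e3
    rw [map_add, map_add, norm_add_sq_real, norm_add_sq_real, inner_add_left, inner_add_left,
      ← ha, ha', real_inner_comm (A u) (A v), real_inner_comm (B u) (B v), ← hk, hkB] at e1
    rw [← ha, ha'] at e2
    rw [← ha, ha', real_inner_comm (A u) (A v), real_inner_comm (B u) (B v), ← hk, hkB] at e3
    field_simp at e1 e2 e3 ⊢
    linarith
  have pv : ∀ y, ⟪A y, A u⟫_ℝ - ⟪A y, A v⟫_ℝ * k / b = ⟪B y, B u⟫_ℝ - ⟪B y, B v⟫_ℝ * k / b := by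
    intro y
    have e1 := hsv (y + u)
    have e2 := hsv y
    have e3 := hsv u
    unfold sc at e1 e2 e3
    rw [map_add, map_add, norm_add_sq_real, norm_add_sq_real, inner_add_left, inner_add_left,
      ← hb, hb', ← hk, hkB] at e1
    rw [← hb, hb'] at e2
    rw [← hb, hb', ← hk, hkB] at e3
    field_simp at e1 e2 e3 ⊢
    linarith
  intro y
  have q1 := pu y
  have q2 := pv y
  set P : ℝ := ⟪A y, A u⟫_ℝ - ⟪B y, B u⟫_ℝ with hP
  set Q : ℝ := ⟪A y, A v⟫_ℝ - ⟪B y, B v⟫_ℝ with hQ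
  have r1 : Q = P * k / a := by
    rw [hP, hQ]
    field_simp at q1 ⊢
    linarith
  have r2 : P = Q * k / b := by
    rw [hP, hQ]
    field_simp at q2 ⊢
    linarith
  have r3 : P = 0 := by
    rw [r1] at r2
    have r4 : P * (a * b - k ^ 2) = 0 := by
      field_simp at r2
      linarith
    rcases mul_eq_zero.1 r4 with h6 | h6
    · exact h6
    · linarith
  have e2 := hsu y
  unfold sc at e2
  rw [← ha, ha'] at e2
  have r5 : ⟪A y, A u⟫_ℝ = ⟪B y, B u⟫_ℝ := by linarith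
  rw [r5] at e2
  linarith

/-- a unit vector killed by two linear functionals -/
theorem exists_unit (p q : E3) : ∃ w : E3, ‖w‖ = 1 ∧ ⟪p, w⟫_ℝ = 0 ∧ ⟪q, w⟫_ℝ = 0 := by
  classical
  have hdim : Module.finrank ℝ E3 = 3 := by simp
  have h1 : Module.finrank ℝ (Submodule.span ℝ (({p, q} : Finset E3) : Set E3)) ≤ 2 :=
    (finrank_span_finset_le_card _).trans (Finset.card_le_two)
  have hne : (Submodule.span ℝ (({p, q} : Finset E3) : Set E3))ᗮ ≠ ⊥ := by
    intro hbot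
    have := Submodule.finrank_add_finrank_orthogonal
      (Submodule.span ℝ (({p, q} : Finset E3) : Set E3))
    rw [hbot, hdim] at this
    simp only [finrank_bot, add_zero] at this
    omega
  obtain ⟨w, hw, hw0⟩ := Submodule.exists_mem_ne_zero_of_ne_bot hne
  have hwn : ‖w‖ ≠ 0 := norm_ne_zero_iff.2 hw0
  refine ⟨(‖w‖⁻¹) • w, ?_, ?_, ?_⟩
  · rw [norm_smul, norm_inv, norm_norm, inv_mul_cancel₀ hwn]
  · rw [inner_smul_right, hw p (Submodule.subset_span (by simp)), mul_zero]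
  · rw [inner_smul_right, hw q (Submodule.subset_span (by simp)), mul_zero]

/-- the adjoint form: a unit vector conjugate to `u` for `A` and to `v` for `B` -/
theorem exists_conj (A B : E3 ≃L[ℝ] E3) (u v : E3) :
    ∃ w : E3, ‖w‖ = 1 ∧ ⟪A u, A w⟫_ℝ = 0 ∧ ⟪B v, B w⟫_ℝ = 0 := by
  obtain ⟨w, hw, h1, h2⟩ := exists_unit
    (ContinuousLinearMap.adjoint (A : E3 →L[ℝ] E3) (A u))
    (ContinuousLinearMap.adjoint (B : E3 →L[ℝ] E3) (B v))
  refine ⟨w, hw, ?_, ?_⟩
  · rw [ContinuousLinearMap.adjoint_inner_left] at h1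
    exact h1
  · rw [ContinuousLinearMap.adjoint_inner_left] at h2
    exact h2

/-- **Three successive X-rays determine every ellipsoid**, whatever the first two directions. -/
theorem three_steps (u v : E3) (hu : ‖u‖ = 1) (hv : ‖v‖ = 1) (hind : ∀ t : ℝ, v ≠ t • u) :
    ∃ F : (E3 → ℝ≥0∞) → (E3 → ℝ≥0∞) → E3, (∀ f g, ‖F f g‖ = 1) ∧
      ∀ (A : E3 ≃L[ℝ] E3) (c : E3) (K : Set E3), IsBody K →
        xray u K = xray u (elp A c) → xray v K = xray v (elp A c) →
        xray (F (xray u (elp A c)) (xray v (elp A c))) K =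
          xray (F (xray u (elp A c)) (xray v (elp A c))) (elp A c) → K = elp A c := by
  classical
  have hu0 : u ≠ 0 := by rintro rfl; simp at hu
  have hv0 : v ≠ 0 := by rintro rfl; simp at hv
  set Pos : (E3 → ℝ≥0∞) → (E3 → ℝ≥0∞) → (E3 ≃L[ℝ] E3) → Prop := fun f g A =>
    (∃ c, xray u (elp A c) = f ∧ xray v (elp A c) = g) ∧ 0 ≤ ⟪A u, A v⟫_ℝ with hPos
  set Neg : (E3 → ℝ≥0∞) → (E3 → ℝ≥0∞) → (E3 ≃L[ℝ] E3) → Prop := fun f g A =>
    (∃ c, xray u (elp A c) = f ∧ xray v (elp A c) = g) ∧ ⟪A u, A v⟫_ℝ ≤ 0 with hNeg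
  set P : (E3 → ℝ≥0∞) → (E3 → ℝ≥0∞) → (E3 ≃L[ℝ] E3) := fun f g =>
    if h : ∃ A, Pos f g A then h.choose else ContinuousLinearEquiv.refl ℝ E3 with hP
  set N : (E3 → ℝ≥0∞) → (E3 → ℝ≥0∞) → (E3 ≃L[ℝ] E3) := fun f g =>
    if h : ∃ A, Neg f g A then h.choose else ContinuousLinearEquiv.refl ℝ E3 with hN
  refine ⟨fun f g => (exists_conj (P f g) (N f g) u v).choose,
    fun f g => (exists_conj (P f g) (N f g) u v).choose_spec.1, ?_⟩
  intro A c K hK h1 h2 h3
  set f := xray u (elp A c) with hf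
  set g := xray v (elp A c) with hg
  obtain ⟨hw, hw1, hw2⟩ := (exists_conj (P f g) (N f g) u v).choose_spec
  set w := (exists_conj (P f g) (N f g) u v).choose with hwdef
  rcases le_total 0 ⟪A u, A v⟫_ℝ with hs | hs
  · have hex : ∃ A, Pos f g A := ⟨A, ⟨c, rfl, rfl⟩, hs⟩
    have hspec : Pos f g (P f g) := by
      have : P f g = hex.choose := by rw [hP]; exact dif_pos hex
      rw [this]
      exact hex.choose_spec
    obtain ⟨⟨e, he1, he2⟩, hs2⟩ := hspec
    have hno := (two_xrays A (P f g) hu0 hv0 hind c e he1.symm he2.symm (Or.inl ⟨hs, hs2⟩)).2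
    have hconj : ⟪A u, A w⟫_ℝ = 0 := by
      rw [inner_eq_of_norm_eq A (P f g) hno]
      exact hw1
    exact conj_unique A c u w hu hw hconj K hK h1 h3
  · have hex : ∃ A, Neg f g A := ⟨A, ⟨c, rfl, rfl⟩, hs⟩
    have hspec : Neg f g (N f g) := by
      have : N f g = hex.choose := by rw [hN]; exact dif_pos hex
      rw [this]
      exact hex.choose_spec
    obtain ⟨⟨e, he1, he2⟩, hs2⟩ := hspec
    have hno := (two_xrays A (N f g) hu0 hv0 hind c e he1.symm he2.symm (Or.inr ⟨hs, hs2⟩)).2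
    have hconj : ⟪A v, A w⟫_ℝ = 0 := by
      rw [inner_eq_of_norm_eq A (N f g) hno]
      exact hw2
    exact conj_unique A c v w hv hw hconj K hK h2 h3

end Pool.Agent.Y227.XR
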