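import Pool.Agent.Y227.XR.Main

/-!
# Ellipsoids which are not determined
-/

set_option autoImplicit false

open MeasureTheory Set
open scoped InnerProductSpace ENNReal

namespace Pool.Agent.Y227.XR

open Pool.Agent.Results.MP_5df5df_gt.TwoSuccessiveFail

/-- The shear `z ↦ z + ⟪m, z⟫ w` with `⟪m, w⟫ = 0`. -/
noncomputable def shear (m w : E3) (h : ⟪m, w⟫_ℝ = 0) : E3 ≃L[ℝ] E3 :=
  (LinearEquiv.ofInjectiveEndo
    ({ toFun := fun z => z + ⟪m, z⟫_ℝ • w
       map_add' := by
        intro x y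
        rw [inner_add_right]
        module
       map_smul' := by
        intro r x
        rw [inner_smul_right]
        simp only [RingHom.id_apply]
        module } : E3 →ₗ[ℝ] E3) (by
      rw [← LinearMap.ker_eq_bot, LinearMap.ker_eq_bot']
      intro z hz
      have h1 : z + ⟪m, z⟫_ℝ • w = 0 := hz
      have h2 : ⟪m, z + ⟪m, z⟫_ℝ • w⟫_ℝ = 0 := by rw [h1, inner_zero_right]
      rw [inner_add_right, inner_smul_right, h, mul_zero, add_zero] at h2
      rw [h2, zero_smul, add_zero] at h1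
      exact h1)).toContinuousLinearEquiv

theorem shear_apply (m w : E3) (h : ⟪m, w⟫_ℝ = 0) (z : E3) :
    shear m w h z = z + ⟪m, z⟫_ℝ • w := rfl

/-- if the quantities attached to a direction agree then the X-rays agree -/
theorem xray_congr (A B : E3 ≃L[ℝ] E3) {u : E3} (hu : u ≠ 0) (c : E3) (h1 : ‖A u‖ = ‖B u‖)
    (h2 : ∀ y, sc A u y = sc B u y) : xray u (elp A c) = xray u (elp B c) := by
  funext x
  rw [chord A hu, chord B hu, h1, h2]

/-- if the two directions are not conjugate, then there is a second ellipsoid -/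
theorem exists_second (A : E3 ≃L[ℝ] E3) (c u v : E3) (hu : u ≠ 0) (hv : v ≠ 0)
    (hind : ∀ t : ℝ, v ≠ t • u) (hk0 : ⟪A u, A v⟫_ℝ ≠ 0) :
    ∃ B : E3 ≃L[ℝ] E3, elp B c ≠ elp A c ∧ xray u (elp B c) = xray u (elp A c) ∧
      xray v (elp B c) = xray v (elp A c) := by
  have hA := norm_pos' A hu
  have hAv := norm_pos' A hv
  set a : ℝ := ‖A u‖ ^ 2 with ha
  set b : ℝ := ‖A v‖ ^ 2 with hb
  have hapos : 0 < a := by positivity
  have hbpos : 0 < b := by positivity
  set k : ℝ := ⟪A u, A v⟫_ℝ with hk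
  have huu : ⟪A u, A u⟫_ℝ = a := by rw [real_inner_self_eq_norm_sq]
  have hvv : ⟪A v, A v⟫_ℝ = b := by rw [real_inner_self_eq_norm_sq]
  have hvu : ⟪A v, A u⟫_ℝ = k := by rw [real_inner_comm]
  have hD : 0 < a * b - k ^ 2 := by
    have h3 := sc_nonneg A hu v
    have h4 : sc A u v ≠ 0 := by
      intro h5
      obtain ⟨r, hr⟩ := sc_eq_zero A hu h5
      exact hind r hr
    have h5 : 0 < sc A u v := lt_of_le_of_ne h3 (Ne.symm h4)
    unfold sc at h5
    rw [hvu, ← ha, ← hb] at h5
    rw [sub_pos, div_lt_iff₀ hapos] at h5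
    linarith
  set D : ℝ := a * b - k ^ 2 with hDdef
  set m : E3 := (-(2 * k) / (a * D)) • (a • A v - k • A u) with hm
  have hmu : ⟪m, A u⟫_ℝ = 0 := by
    rw [hm, inner_smul_left, inner_sub_left, inner_smul_left, inner_smul_left, hvu, huu]
    simp only [conj_trivial]
    ring
  have hmz : ∀ z : E3, ⟪m, z⟫_ℝ = -(2 * k) / (a * D) * (a * ⟪z, A v⟫_ℝ - k * ⟪z, A u⟫_ℝ) := by
    intro z
    rw [hm, inner_smul_left, inner_sub_left, inner_smul_left, inner_smul_left,
      real_inner_comm z (A v), real_inner_comm z (A u)]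
    simp only [conj_trivial]
  have hmv : ⟪m, A v⟫_ℝ = -(2 * k) / a := by
    rw [hmz, hvv, hvu]
    have : a * b - k * k = D := by rw [hDdef]; ring
    rw [this]
    field_simp
  set S := shear m (A u) hmu with hS
  set B : E3 ≃L[ℝ] E3 := A.trans S with hB
  have hBy : ∀ y, B y = A y + ⟪m, A y⟫_ℝ • A u := fun y => rfl
  have hBu : B u = A u := by rw [hBy, hmu, zero_smul, add_zero]
  have hBv : B v = A v + (-(2 * k) / a) • A u := by rw [hBy, hmv]
  have nBy : ∀ y, ‖B y‖ ^ 2 = ‖A y‖ ^ 2 + 2 * ⟪m, A y⟫_ℝ * ⟪A y, A u⟫_ℝ + ⟪m, A y⟫_ℝ ^ 2 * a := by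
    intro y
    rw [hBy, norm_add_sq_real, inner_smul_right, norm_smul, mul_pow, Real.norm_eq_abs, sq_abs]
    ring
  have nBv : ‖B v‖ ^ 2 = b := by
    rw [nBy, hmv, hvu, ← hb]
    field_simp
    ring
  have iu : ∀ y, ⟪B y, B u⟫_ℝ = ⟪A y, A u⟫_ℝ + ⟪m, A y⟫_ℝ * a := by
    intro y
    rw [hBu, hBy, inner_add_left, inner_smul_left, huu]
    simp only [conj_trivial]
  have iv : ∀ y, ⟪B y, B v⟫_ℝ = ⟪A y, A v⟫_ℝ - 2 * k / a * ⟪A y, A u⟫_ℝ - k * ⟪m, A y⟫_ℝ := by
    intro y
    rw [hBv, hBy]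
    obtain ⟨l, hl⟩ : ∃ l : ℝ, l = ⟪m, A y⟫_ℝ := ⟨_, rfl⟩
    rw [← hl, inner_add_left, inner_add_right, inner_add_right, inner_smul_left,
      inner_smul_right, inner_smul_left, inner_smul_right, huu, ← hk]
    simp only [conj_trivial]
    field_simp
    ring
  have hn_u : ‖A u‖ = ‖B u‖ := by rw [hBu]
  have hn_v : ‖A v‖ = ‖B v‖ := by
    have : ‖A v‖ ^ 2 = ‖B v‖ ^ 2 := by rw [nBv]
    exact (pow_left_inj₀ (norm_nonneg _) (norm_nonneg _) two_ne_zero).1 this
  have hsc_u : ∀ y, sc A u y = sc B u y := by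
    intro y
    unfold sc
    rw [← hn_u, iu, nBy, ← ha]
    field_simp
    ring
  have hsc_v : ∀ y, sc A v y = sc B v y := by
    intro y
    unfold sc
    rw [← hn_v, iv, nBy, ← hb]
    have hl := hmz (A y)
    set p := ⟪A y, A u⟫_ℝ with hp
    set q := ⟪A y, A v⟫_ℝ with hq
    set l := ⟪m, A y⟫_ℝ with hldef
    have hl2 : l * (a * D) = -(2 * k) * (a * q - k * p) := by
      rw [hl]
      field_simp
    have key : b * (2 * l * p + l ^ 2 * a) - (q - 2 * k / a * p - k * l) ^ 2 + q ^ 2 = 0 := by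
      have hl3 : l = -(2 * k) * (a * q - k * p) / (a * D) := by
        rw [eq_div_iff (by positivity), hl2]
      have hb3 : b = (D + k ^ 2) / a := by
        rw [hDdef]
        field_simp
        ring
      rw [hl3, hb3]
      field_simp
      ring
    have key2 : (2 * l * p + l ^ 2 * a) = ((q - 2 * k / a * p - k * l) ^ 2 - q ^ 2) / b := by
      rw [eq_div_iff hbpos.ne']
      linarith
    have : ‖A y‖ ^ 2 + 2 * l * p + l ^ 2 * a = ‖A y‖ ^ 2 + (2 * l * p + l ^ 2 * a) := by ring
    rw [this, key2]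
    ring
  refine ⟨B, ?_, (xray_congr A B hu c hn_u hsc_u).symm, (xray_congr A B hv c hn_v hsc_v).symm⟩
  intro heq
  -- direction `u + v`
  have hw : u + v ≠ 0 := by
    intro h
    apply hind (-1)
    rw [neg_one_smul]
    exact (neg_eq_of_add_eq_zero_right h).symm
  have h1 := (xray_eq A B hw c c (by rw [heq])).2.1
  have h2 : ‖A (u + v)‖ ^ 2 = ‖B (u + v)‖ ^ 2 := by rw [h1]
  have huv := iv u
  rw [map_add, map_add, norm_add_sq_real, norm_add_sq_real, huv, nBv, ← hk, ← hb, hBu, hmu,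
    huu] at h2
  have h3 : 2 * k / a * a = 2 * k := by field_simp
  rw [h3] at h2
  apply hk0
  linarith

/-- an ellipsoid is determined by two X-rays exactly when the directions are conjugate -/
theorem determined_iff (A : E3 ≃L[ℝ] E3) (c u v : E3) (hu : ‖u‖ = 1) (hv : ‖v‖ = 1)
    (hind : ∀ t : ℝ, v ≠ t • u) :
    (∀ K, IsBody K → xray u K = xray u (elp A c) → xray v K = xray v (elp A c) → K = elp A c) ↔
      ⟪A u, A v⟫_ℝ = 0 := by
  have hu0 : u ≠ 0 := by rintro rfl; simp at hu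
  have hv0 : v ≠ 0 := by rintro rfl; simp at hv
  constructor
  · intro h
    by_contra hk
    obtain ⟨B, hne, h1, h2⟩ := exists_second A c u v hu0 hv0 hind hk
    exact hne (h _ (elp_isBody B c) h1 h2)
  · intro h K hK h1 h2
    exact conj_unique A c u v hu hv h K hK h1 h2

/-- one X-ray is never enough -/
theorem one_fails (A : E3 ≃L[ℝ] E3) (c u : E3) (hu : ‖u‖ = 1) :
    ∃ K, IsBody K ∧ K ≠ elp A c ∧ xray u K = xray u (elp A c) := by
  have hu0 : u ≠ 0 := by rintro rfl; simp at hu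
  have hA := norm_pos' A hu0
  refine ⟨elp A (c + (3 / ‖A u‖) • u), elp_isBody _ _, ?_, ?_⟩
  · intro h
    have h1 : c ∈ elp A c := by
      rw [mem_elp]
      simp
    rw [← h, mem_elp] at h1
    have h2 : c - (c + (3 / ‖A u‖) • u) = -((3 / ‖A u‖) • u) := by abel
    rw [h2, map_neg, norm_neg, map_smul, norm_smul, Real.norm_eq_abs,
      abs_of_pos (by positivity), div_mul_cancel₀ _ hA.ne'] at h1
    norm_num at h1
  · funext x
    rw [chord A hu0, chord A hu0]
    have h2 : x - (c + (3 / ‖A u‖) • u) = (x - c) + (-(3 / ‖A u‖)) • u := by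
      rw [neg_smul]
      abel
    rw [h2, sc_add_smul A hu0]

/-- no two-step procedure determines all ellipsoids -/
theorem two_steps_fail (u : E3) (hu : ‖u‖ = 1) (F : (E3 → ℝ≥0∞) → E3) (hF : ∀ f, ‖F f‖ = 1) :
    ∃ A B : E3 ≃L[ℝ] E3, elp A 0 ≠ elp B 0 ∧ xray u (elp A 0) = xray u (elp B 0) ∧
      xray (F (xray u (elp A 0))) (elp A 0) = xray (F (xray u (elp A 0))) (elp B 0) := by
  have hu0 : u ≠ 0 := by rintro rfl; simp at hu
  have huu : ⟪u, u⟫_ℝ = 1 := by rw [real_inner_self_eq_norm_sq, hu]; norm_num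
  -- the family of ellipsoids with the X-ray of the unit ball
  have fam : ∀ p : E3, ∀ hp : ⟪p, u⟫_ℝ = 0,
      xray u (elp (shear p u hp) 0) = xray u (elp (ContinuousLinearEquiv.refl ℝ E3) 0) := by
    intro p hp
    have e1 : shear p u hp u = u := by rw [shear_apply, hp, zero_smul, add_zero]
    refine xray_congr _ _ hu0 0 ?_ ?_
    · rw [e1]; rfl
    · intro y
      unfold sc
      rw [e1, shear_apply]
      simp only [ContinuousLinearEquiv.refl_apply]
      rw [norm_add_sq_real, inner_smul_right, norm_smul, mul_pow, Real.norm_eq_abs, sq_abs,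
        inner_add_left, inner_smul_left, huu, hu]
      simp only [conj_trivial]
      ring
  set f := xray u (elp (ContinuousLinearEquiv.refl ℝ E3) 0) with hf
  set v := F f with hv
  have hvn : ‖v‖ = 1 := hF f
  by_cases hpar : ∃ t : ℝ, v = t • u
  · -- the second direction is parallel to the first
    obtain ⟨t, ht⟩ := hpar
    obtain ⟨e, he, heu⟩ := exists_perp u
    have ht0 : t ≠ 0 := by
      rintro rfl
      rw [zero_smul] at ht
      rw [ht] at hvn
      simp at hvn
    have hvu : ∀ (A B : E3 ≃L[ℝ] E3), xray u (elp A 0) = xray u (elp B 0) →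
        xray v (elp A 0) = xray v (elp B 0) := by
      intro A B h
      obtain ⟨-, h1, h2⟩ := xray_eq A B hu0 0 0 h
      have hv0 : v ≠ 0 := by
        intro h0
        rw [h0] at hvn
        simp at hvn
      have hs : ∀ (C : E3 ≃L[ℝ] E3) (y : E3), sc C v y = sc C u y := by
        intro C y
        have hC := norm_pos' C hu0
        unfold sc
        rw [ht, map_smul, inner_smul_right, norm_smul, mul_pow, mul_pow, Real.norm_eq_abs, sq_abs]
        field_simp
      refine xray_congr A B hv0 0 ?_ ?_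
      · rw [ht, map_smul, map_smul, norm_smul, norm_smul, h1]
      · intro y
        rw [hs, hs, h2]
    refine ⟨ContinuousLinearEquiv.refl ℝ E3, shear e u heu, ?_, (fam e heu).symm, ?_⟩
    · intro h
      have hne : e ≠ 0 := by rintro rfl; simp at he
      have h1 := (xray_eq _ _ hne 0 0 (congrArg (xray e) h)).2.1
      rw [shear_apply] at h1
      simp only [ContinuousLinearEquiv.refl_apply] at h1
      have h2 : ‖e‖ ^ 2 = ‖e + ⟪e, e⟫_ℝ • u‖ ^ 2 := by rw [← h1]
      rw [norm_add_sq_real, inner_smul_right, heu, norm_smul, hu, real_inner_self_eq_norm_sq,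
        he] at h2
      norm_num at h2
    · exact hvu _ _ (fam e heu).symm
  · push Not at hpar
    have hv0 : v ≠ 0 := by
      intro h0
      rw [h0] at hvn
      simp at hvn
    -- an ellipsoid of the family for which the directions are not conjugate
    obtain ⟨p, hp, hpk⟩ : ∃ p : E3, ∃ hp : ⟪p, u⟫_ℝ = 0,
        ⟪shear p u hp u, shear p u hp v⟫_ℝ ≠ 0 := by
      have hval : ∀ (p : E3) (hp : ⟪p, u⟫_ℝ = 0),
          ⟪shear p u hp u, shear p u hp v⟫_ℝ = ⟪u, v⟫_ℝ + ⟪p, v⟫_ℝ := by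
        intro p hp
        rw [shear_apply, shear_apply, hp, zero_smul, add_zero, inner_add_right, inner_smul_right,
          huu, mul_one]
      by_cases h0 : ⟪u, v⟫_ℝ = 0
      · have hvu : ⟪v, u⟫_ℝ = 0 := by rw [real_inner_comm]; exact h0
        refine ⟨v, hvu, ?_⟩
        rw [hval, h0, zero_add, real_inner_self_eq_norm_sq, hvn]
        norm_num
      · refine ⟨0, inner_zero_left _, ?_⟩
        rw [hval, inner_zero_left, add_zero]
        exact h0
    obtain ⟨B, hne, h1, h2⟩ := exists_second (shear p u hp) 0 u v hu0 hv0 hpar hpk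
    refine ⟨shear p u hp, B, hne.symm, h1.symm, ?_⟩
    rw [fam p hp]
    exact h2.symm

end Pool.Agent.Y227.XR
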